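import Mathlib

/-!
# MP_aaa104_nt: a satisfactory colouring which is not recovered from its induced tiling

For `n = 6` there is a `6`-satisfactory colouring `c` of the group `K̂_6` of positive `6`-smooth
rationals such that for none of its colour classes `X` the partition `c'` of `K̂_6` into the sets
`i X`, `i ∈ [6]`, is the partition into the colour classes of `c`.  The colour of `2^α 3^β 5^γ`
depends only on `(α mod 6, β mod 2, γ mod 6)`; the table was found with a SAT solver.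
-/

set_option autoImplicit false

namespace Pool.Agent.Results.MP_aaa104_nt.SixColoring

/-- `K̂_n`: the positive rationals `a/b` with `a`, `b` `n`-smooth (all prime factors at most `n`). -/
def K (n : ℕ) : Set ℚ :=
  {q | 0 < q ∧ ∀ p : ℕ, p.Prime → (p ∣ q.num.natAbs ∨ p ∣ q.den) → p ≤ n}

/-- `c` is an `n`-satisfactory colouring of `K̂_n`: it takes values in `{1, …, n}` on `K̂_n`,
`c i = i` for `i ∈ {1, …, n}`, and `c (i x) ≠ c (j x)` for all `x ∈ K̂_n` and `1 ≤ i < j ≤ n`. -/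
def Satisfactory (n : ℕ) (c : ℚ → ℕ) : Prop :=
  (∀ x ∈ K n, 1 ≤ c x ∧ c x ≤ n) ∧ (∀ i : ℕ, 1 ≤ i → i ≤ n → c i = i) ∧
    ∀ x ∈ K n, ∀ i j : ℕ, 1 ≤ i → i < j → j ≤ n → c (i * x) ≠ c (j * x)

/-- the colour class of the colour `k` in `K̂_n` -/
def colorClass (n : ℕ) (c : ℚ → ℕ) (k : ℕ) : Set ℚ := {x | x ∈ K n ∧ c x = k}

/-- the partition of `K̂_n` into the colour classes of `c` -/
def classes (n : ℕ) (c : ℚ → ℕ) : Set (Set ℚ) := {P | ∃ k, 1 ≤ k ∧ k ≤ n ∧ P = colorClass n c k}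

/-- the partition `c'` of `K̂_n` into the sets `t⁻¹(t(i) + t(X)) = {y ∈ K̂_n : y / i ∈ X}`,
`i ∈ {1, …, n}` -/
def induced (n : ℕ) (X : Set ℚ) : Set (Set ℚ) :=
  {P | ∃ i : ℕ, 1 ≤ i ∧ i ≤ n ∧ P = {y | y ∈ K n ∧ y / i ∈ X}}

/-- the table of the colouring -/
def tab (a : ZMod 6) (b : ZMod 2) (g : ZMod 6) : ℕ :=
  [1,5,2,3,4,6,3,4,6,1,5,2,2,1,4,6,3,5,6,3,5,2,1,4,4,6,1,5,2,3,5,2,3,4,6,1,3,5,2,1,4,6,1,4,6,3,5,2,
    2,3,4,6,1,5,6,1,5,2,3,4,4,6,3,5,2,1,5,2,1,4,6,3].getD ((a.val * 2 + b.val) * 6 + g.val) 0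

/-- the colour of `2^α 3^β 5^γ` is `tab α β γ` -/
noncomputable def col (q : ℚ) : ℕ :=
  tab ((padicValRat 2 q : ℤ) : ZMod 6) ((padicValRat 3 q : ℤ) : ZMod 2)
    ((padicValRat 5 q : ℤ) : ZMod 6)

/-- exponents of `i ∈ {1, …, 6}` -/
def t (i : ℕ) : ZMod 6 × ZMod 2 × ZMod 6 :=
  if i = 2 then (1, 0, 0) else if i = 3 then (0, 1, 0) else if i = 4 then (2, 0, 0)
  else if i = 5 then (0, 0, 1) else if i = 6 then (1, 1, 0) else (0, 0, 0)

theorem pv {p n : ℕ} (k : ℕ) (hp : p.Prime) (hn : n ≠ 0) (h1 : p ^ k ∣ n) (h2 : ¬ p ^ (k + 1) ∣ n) :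
    padicValNat p n = k := by
  have : Fact p.Prime := ⟨hp⟩
  apply le_antisymm
  · by_contra h
    exact h2 ((padicValNat_dvd_iff_le hn).2 (by omega))
  · exact (padicValNat_dvd_iff_le hn).1 h1

theorem col_mul (i : ℕ) (h1 : 1 ≤ i) (h6 : i ≤ 6) (x : ℚ) (hx : x ≠ 0) :
    col (i * x) = tab ((t i).1 + ((padicValRat 2 x : ℤ) : ZMod 6))
      ((t i).2.1 + ((padicValRat 3 x : ℤ) : ZMod 2)) ((t i).2.2 + ((padicValRat 5 x : ℤ) : ZMod 6)) := by
  have : Fact (Nat.Prime 2) := ⟨Nat.prime_two⟩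
  have : Fact (Nat.Prime 3) := ⟨Nat.prime_three⟩
  have : Fact (Nat.Prime 5) := ⟨Nat.prime_five⟩
  have hi : (i : ℚ) ≠ 0 := by
    have : i ≠ 0 := by omega
    exact_mod_cast this
  unfold col
  rw [padicValRat.mul hi hx, padicValRat.mul hi hx, padicValRat.mul hi hx, padicValRat.of_nat,
    padicValRat.of_nat, padicValRat.of_nat]
  have h2 : padicValNat 2 i = (t i).1.val ∧ padicValNat 3 i = (t i).2.1.val ∧
      padicValNat 5 i = (t i).2.2.val := by
    refine ⟨pv _ Nat.prime_two (by omega) ?_ ?_, pv _ Nat.prime_three (by omega) ?_ ?_,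
      pv _ Nat.prime_five (by omega) ?_ ?_⟩ <;> interval_cases i <;> decide
  rw [h2.1, h2.2.1, h2.2.2]
  push_cast
  rw [ZMod.natCast_zmod_val, ZMod.natCast_zmod_val, ZMod.natCast_zmod_val]

theorem tab_ne : ∀ (a : ZMod 6) (b : ZMod 2) (g : ZMod 6), ∀ j < 7, ∀ i < j, 1 ≤ i →
    tab ((t i).1 + a) ((t i).2.1 + b) ((t i).2.2 + g) ≠
      tab ((t j).1 + a) ((t j).2.1 + b) ((t j).2.2 + g) := by decide +kernel

theorem tab_range : ∀ (a : ZMod 6) (b : ZMod 2) (g : ZMod 6), 1 ≤ tab a b g ∧ tab a b g ≤ 6 := by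
  decide +kernel

theorem tab_t : ∀ i < 7, 1 ≤ i → tab (t i).1 (t i).2.1 (t i).2.2 = i := by decide +kernel

theorem col_nat (i : ℕ) (h1 : 1 ≤ i) (h6 : i ≤ 6) : col i = i := by
  have h := col_mul i h1 h6 1 one_ne_zero
  rw [mul_one] at h
  rw [h]
  simp only [padicValRat.one, Int.cast_zero, add_zero]
  exact tab_t i (by omega) h1

theorem sat : Satisfactory 6 col := by
  refine ⟨fun x _ => tab_range _ _ _, fun i h1 h6 => col_nat i h1 h6, ?_⟩
  intro x hx i j h1 hij h6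
  have hx0 : x ≠ 0 := ne_of_gt hx.1
  rw [col_mul i h1 (by omega) x hx0, col_mul j (by omega) h6 x hx0]
  exact tab_ne _ _ _ j (by omega) i hij h1

theorem col_one_class {x y : ℚ} {k : ℕ} (hx : x ∈ K 6) (hy : y ∈ K 6) (hxk : col x = k)
    (hyk : col y = k) {i : ℕ} (h1 : 1 ≤ i) (h6 : i ≤ 6) (hne : col (i * x) ≠ col (i * y))
    (hKx : (i : ℚ) * x ∈ K 6) (hKy : (i : ℚ) * y ∈ K 6) :
    {y | y ∈ K 6 ∧ y / i ∈ colorClass 6 col k} ∉ classes 6 col := by
  have hi : (i : ℚ) ≠ 0 := by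
    have : i ≠ 0 := by omega
    exact_mod_cast this
  rintro ⟨l, -, -, hl⟩
  have h2 : (i : ℚ) * x ∈ {y | y ∈ K 6 ∧ y / i ∈ colorClass 6 col k} :=
    ⟨hKx, by rw [mul_div_cancel_left₀ _ hi]; exact ⟨hx, hxk⟩⟩
  have h3 : (i : ℚ) * y ∈ {y | y ∈ K 6 ∧ y / i ∈ colorClass 6 col k} :=
    ⟨hKy, by rw [mul_div_cancel_left₀ _ hi]; exact ⟨hy, hyk⟩⟩
  rw [hl] at h2 h3
  exact hne (h2.2.trans h3.2.symm)

/-- the number `2^a 3^b 5^g` -/
def num (a b g : ℕ) : ℕ := 2 ^ a * 3 ^ b * 5 ^ g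

theorem num_mem (a b g : ℕ) : ((num a b g : ℕ) : ℚ) ∈ K 6 := by
  refine ⟨by unfold num; positivity, ?_⟩
  intro p hp h
  rw [Rat.num_natCast, Rat.den_natCast, Int.natAbs_natCast] at h
  rcases h with h | h
  · unfold num at h
    rcases (hp.dvd_mul).1 h with h | h
    · rcases (hp.dvd_mul).1 h with h | h
      · have := Nat.le_of_dvd (by norm_num) (hp.dvd_of_dvd_pow h); omega
      · have := Nat.le_of_dvd (by norm_num) (hp.dvd_of_dvd_pow h); omega
    · have := Nat.le_of_dvd (by norm_num) (hp.dvd_of_dvd_pow h); omega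
  · exact absurd (Nat.dvd_one.1 h) hp.one_lt.ne'

theorem vals (a b g : ℕ) : padicValRat 2 ((num a b g : ℕ) : ℚ) = (a : ℤ) ∧
    padicValRat 3 ((num a b g : ℕ) : ℚ) = (b : ℤ) ∧ padicValRat 5 ((num a b g : ℕ) : ℚ) = (g : ℤ) := by
  have : Fact (Nat.Prime 2) := ⟨Nat.prime_two⟩
  have : Fact (Nat.Prime 3) := ⟨Nat.prime_three⟩
  have : Fact (Nat.Prime 5) := ⟨Nat.prime_five⟩
  have h2 : padicValNat 2 (num a b g) = a := by
    unfold num
    rw [padicValNat.mul (by positivity) (by positivity), padicValNat.mul (by positivity) (by positivity),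
      padicValNat.prime_pow, padicValNat_prime_prime_pow b (by norm_num),
      padicValNat_prime_prime_pow g (by norm_num)]
    simp
  have h3 : padicValNat 3 (num a b g) = b := by
    unfold num
    rw [padicValNat.mul (by positivity) (by positivity), padicValNat.mul (by positivity) (by positivity),
      padicValNat.prime_pow, padicValNat_prime_prime_pow a (by norm_num),
      padicValNat_prime_prime_pow g (by norm_num)]
    simp
  have h5 : padicValNat 5 (num a b g) = g := by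
    unfold num
    rw [padicValNat.mul (by positivity) (by positivity), padicValNat.mul (by positivity) (by positivity),
      padicValNat.prime_pow, padicValNat_prime_prime_pow a (by norm_num),
      padicValNat_prime_prime_pow b (by norm_num)]
    simp
  rw [padicValRat.of_nat, padicValRat.of_nat, padicValRat.of_nat, h2, h3, h5]
  exact ⟨rfl, rfl, rfl⟩

theorem col_num (a b g : ℕ) : col (num a b g : ℕ) = tab a b g := by
  unfold col
  have v := vals a b g
  rw [v.1, v.2.1, v.2.2]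
  simp

theorem witness : ∀ k < 7, 1 ≤ k → ∃ i < 7, 1 ≤ i ∧ ∃ a < 6, ∃ b < 2, ∃ g < 6, ∃ a' < 6, ∃ b' < 2,
    ∃ g' < 6, tab (a : ℕ) (b : ℕ) (g : ℕ) = k ∧ tab (a' : ℕ) (b' : ℕ) (g' : ℕ) = k ∧
      tab ((t i).1 + (a : ℕ)) ((t i).2.1 + (b : ℕ)) ((t i).2.2 + (g : ℕ)) ≠
      tab ((t i).1 + (a' : ℕ)) ((t i).2.1 + (b' : ℕ)) ((t i).2.2 + (g' : ℕ)) := by
  decide +kernel

theorem mul_num_mem {i : ℕ} (h1 : 1 ≤ i) (h6 : i ≤ 6) (a b g : ℕ) :
    (i : ℚ) * ((num a b g : ℕ) : ℚ) ∈ K 6 := by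
  have h0 : ((i : ℕ) : ℚ) * ((num a b g : ℕ) : ℚ) = ((i * num a b g : ℕ) : ℚ) := by push_cast; ring
  have hm := num_mem a b g
  refine ⟨?_, ?_⟩
  · have : (0 : ℚ) < i := by exact_mod_cast h1
    exact mul_pos this hm.1
  · intro p hp h
    rw [h0, Rat.num_natCast, Rat.den_natCast, Int.natAbs_natCast] at h
    rcases h with h | h
    · rcases (hp.dvd_mul).1 h with h | h
      · exact (Nat.le_of_dvd (by omega) h).trans h6
      · exact hm.2 p hp (Or.inl (by rwa [Rat.num_natCast, Int.natAbs_natCast]))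
    · exact absurd (Nat.dvd_one.1 h) hp.one_lt.ne'

/-- There is a `6`-satisfactory colouring of `K̂_6` such that, for EVERY colour class `X`, the
partition `c'` of `K̂_6` induced by the tiling `T_6 + t(X)` is not the partition into the colour
classes.  So the answer to the question (for every `n`, every colouring and every colour class) is
negative. -/
theorem result :
    (∃ c : ℚ → ℕ, Satisfactory 6 c ∧
      ∀ k : ℕ, 1 ≤ k → k ≤ 6 → induced 6 (colorClass 6 c k) ≠ classes 6 c) ∧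
    ¬ ∀ n : ℕ, 1 ≤ n → ∀ c : ℚ → ℕ, Satisfactory n c → ∀ k : ℕ, 1 ≤ k → k ≤ n →
      induced n (colorClass n c k) = classes n c := by
  have key : ∀ k : ℕ, 1 ≤ k → k ≤ 6 → induced 6 (colorClass 6 col k) ≠ classes 6 col := by
    intro k hk1 hk6 heq
    obtain ⟨i, hi, h1, a, -, b, -, g, -, a', -, b', -, g', -, e1, e2, e3⟩ := witness k (by omega) hk1
    have hmem : {y | y ∈ K 6 ∧ y / i ∈ colorClass 6 col k} ∈ induced 6 (colorClass 6 col k) :=
      ⟨i, h1, by omega, rfl⟩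
    rw [heq] at hmem
    refine col_one_class (num_mem a b g) (num_mem a' b' g') (by rw [col_num, e1])
      (by rw [col_num, e2]) h1 (by omega) ?_ (mul_num_mem h1 (by omega) a b g)
      (mul_num_mem h1 (by omega) a' b' g') hmem
    have n1 : ((num a b g : ℕ) : ℚ) ≠ 0 := ne_of_gt (num_mem a b g).1
    have n2 : ((num a' b' g' : ℕ) : ℚ) ≠ 0 := ne_of_gt (num_mem a' b' g').1
    rw [col_mul i h1 (by omega) _ n1, col_mul i h1 (by omega) _ n2]
    have v := vals a b g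
    have v' := vals a' b' g'
    rw [v.1, v.2.1, v.2.2, v'.1, v'.2.1, v'.2.2]
    simpa using e3
  exact ⟨⟨col, sat, key⟩, fun h => key 1 le_rfl (by norm_num)
    (h 6 (by norm_num) col sat 1 le_rfl (by norm_num))⟩

end Pool.Agent.Results.MP_aaa104_nt.SixColoring
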